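import Mathlib
import Pool.Agent.Q109.Tree

/-!
`P₅`-free graphs whose tree-independence number is twice their induced biclique number: the blow-up
of the five-cycle in which every vertex is replaced by `m` pairwise nonadjacent vertices.
-/

set_option autoImplicit false

namespace Pool.Agent.Results.MP_0bffa7_co.BlowUp

open SimpleGraph

/-- `(T, B)` is a tree decomposition of `G`. -/
structure IsTreeDecomposition {V ι : Type} (G : SimpleGraph V) (T : SimpleGraph ι)
    (B : ι → Finset V) : Prop where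
  isTree : T.IsTree
  vertex : ∀ v : V, ∃ i, v ∈ B i
  edge : ∀ u v : V, G.Adj u v → ∃ i, u ∈ B i ∧ v ∈ B i
  connected : ∀ v : V, (T.induce {i | v ∈ B i}).Connected

/-- The tree-independence number: the least `k` such that `G` has a tree decomposition (over a
finite tree) all of whose bags have independence number at most `k`. -/
noncomputable def treeAlpha {V : Type} (G : SimpleGraph V) : ℕ :=
  sInf {k | ∃ (n : ℕ) (T : SimpleGraph (Fin n)) (B : Fin n → Finset V),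
    IsTreeDecomposition G T B ∧
      ∀ i, ∀ S : Finset V, S ⊆ B i → G.IsIndepSet (S : Set V) → S.card ≤ k}

/-- The induced biclique number: the largest `t` such that `K_{t,t}` is an induced subgraph. -/
noncomputable def ibn {V : Type} (G : SimpleGraph V) : ℕ :=
  sSup {t | (completeBipartiteGraph (Fin t) (Fin t)).IsIndContained G}

/-- The blow-up of the five-cycle with independent classes of size `m`. -/
def Gr (m : ℕ) : SimpleGraph (Fin 5 × Fin m) where
  Adj u v := u.1 + 1 = v.1 ∨ v.1 + 1 = u.1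
  symm := ⟨fun _ _ h => h.symm⟩
  loopless := ⟨fun u h => by
    have : ∀ a : Fin 5, ¬ (a + 1 = a ∨ a + 1 = a) := by decide
    exact this u.1 h⟩

lemma Gr_adj {m : ℕ} {u v : Fin 5 × Fin m} :
    (Gr m).Adj u v ↔ (u.1 + 1 = v.1 ∨ v.1 + 1 = u.1) := Iff.rfl

lemma noP5_aux : ∀ g0 g1 g2 g3 g4 : Fin 5,
    (g0 + 1 = g1 ∨ g1 + 1 = g0) → (g1 + 1 = g2 ∨ g2 + 1 = g1) → (g2 + 1 = g3 ∨ g3 + 1 = g2) →
    (g3 + 1 = g4 ∨ g4 + 1 = g3) → ¬ (g0 + 1 = g2 ∨ g2 + 1 = g0) → ¬ (g0 + 1 = g3 ∨ g3 + 1 = g0) →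
    ¬ (g0 + 1 = g4 ∨ g4 + 1 = g0) → ¬ (g1 + 1 = g3 ∨ g3 + 1 = g1) →
    ¬ (g1 + 1 = g4 ∨ g4 + 1 = g1) → False := by
  decide +kernel

lemma noP5 (m : ℕ) : ¬ (pathGraph 5).IsIndContained (Gr m) := by
  rintro ⟨f⟩
  have h : ∀ i j : Fin 5, ((f i).1 + 1 = (f j).1 ∨ (f j).1 + 1 = (f i).1) ↔ (pathGraph 5).Adj i j :=
    fun i j => f.map_adj_iff
  have e : ∀ i j : Fin 5, (pathGraph 5).Adj i j ↔ (i.val + 1 = j.val ∨ j.val + 1 = i.val) :=
    fun i j => pathGraph_adj
  refine noP5_aux (f 0).1 (f 1).1 (f 2).1 (f 3).1 (f 4).1 ?_ ?_ ?_ ?_ ?_ ?_ ?_ ?_ ?_ <;>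
    · rw [h, e]; decide

lemma noC4_aux : ∀ a a' b b' : Fin 5, a ≠ a' → b ≠ b' →
    (a + 1 = b ∨ b + 1 = a) → (a + 1 = b' ∨ b' + 1 = a) →
    (a' + 1 = b ∨ b + 1 = a') → (a' + 1 = b' ∨ b' + 1 = a') → False := by
  decide +kernel

lemma biclique_le {m t : ℕ} (h : (completeBipartiteGraph (Fin t) (Fin t)).IsIndContained (Gr m)) :
    t ≤ m := by
  obtain ⟨f⟩ := h
  by_contra hc
  rw [not_le] at hc
  have h1 : ∀ i j : Fin t, (Gr m).Adj (f (Sum.inl i)) (f (Sum.inr j)) := by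
    intro i j
    rw [f.map_adj_iff]
    simp
  have key : ∀ g : Fin t → Fin 5 × Fin m, Function.Injective g → ∃ i j, (g i).1 ≠ (g j).1 := by
    intro g hg
    by_contra hn
    push Not at hn
    have : Function.Injective (fun i => (g i).2) := by
      intro i j hij
      exact hg (Prod.ext (hn i j) hij)
    have := Fintype.card_le_of_injective _ this
    simp at this
    omega
  obtain ⟨i, i', hi⟩ := key (fun i => f (Sum.inl i)) (fun a b h => by
    simpa using f.injective h)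
  obtain ⟨j, j', hj⟩ := key (fun i => f (Sum.inr i)) (fun a b h => by
    simpa using f.injective h)
  exact noC4_aux _ _ _ _ hi hj (h1 i j) (h1 i j') (h1 i' j) (h1 i' j')

lemma biclique (m : ℕ) : (completeBipartiteGraph (Fin m) (Fin m)).IsIndContained (Gr m) := by
  have hinj : Function.Injective
      (Sum.elim (fun i => (0, i)) (fun i => (1, i)) : Fin m ⊕ Fin m → Fin 5 × Fin m) := by
    rintro (a | a) (b | b) h
    · simpa using h
    · simp at h
    · simp at h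
    · simpa using h
  refine ⟨⟨⟨_, hinj⟩, ?_⟩⟩
  rintro (a | a) (b | b)
  · change ((0 : Fin 5) + 1 = 0 ∨ (0 : Fin 5) + 1 = 0) ↔ _
    simp
  · change ((0 : Fin 5) + 1 = 1 ∨ (1 : Fin 5) + 1 = 0) ↔ _
    simp
  · change ((1 : Fin 5) + 1 = 0 ∨ (0 : Fin 5) + 1 = 1) ↔ _
    simp
  · change ((1 : Fin 5) + 1 = 1 ∨ (1 : Fin 5) + 1 = 1) ↔ _
    simp only [completeBipartiteGraph_adj]
    simp

lemma ibn_eq (m : ℕ) : ibn (Gr m) = m := by
  unfold ibn
  have : IsGreatest {t | (completeBipartiteGraph (Fin t) (Fin t)).IsIndContained (Gr m)} m :=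
    ⟨biclique m, fun t ht => biclique_le ht⟩
  exact this.csSup_eq

lemma no3_aux : ∀ a b c : Fin 5, a ≠ b → a ≠ c → b ≠ c →
    ¬ (a + 1 = b ∨ b + 1 = a) → ¬ (a + 1 = c ∨ c + 1 = a) → ¬ (b + 1 = c ∨ c + 1 = b) → False := by
  decide +kernel

lemma indep_le {m : ℕ} (S : Finset (Fin 5 × Fin m)) (hS : (Gr m).IsIndepSet (S : Set _)) :
    S.card ≤ 2 * m := by
  classical
  have h1 : (S.image Prod.fst).card ≤ 2 := by
    by_contra hc
    rw [not_le, Finset.two_lt_card] at hc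
    obtain ⟨a, ha, b, hb, c, hc, hab, hac, hbc⟩ := hc
    rw [Finset.mem_image] at ha hb hc
    obtain ⟨a', ha', rfl⟩ := ha
    obtain ⟨b', hb', rfl⟩ := hb
    obtain ⟨c', hc', rfl⟩ := hc
    exact no3_aux _ _ _ hab hac hbc
      (hS (Finset.mem_coe.2 ha') (Finset.mem_coe.2 hb') (fun h => hab (by rw [h])))
      (hS (Finset.mem_coe.2 ha') (Finset.mem_coe.2 hc') (fun h => hac (by rw [h])))
      (hS (Finset.mem_coe.2 hb') (Finset.mem_coe.2 hc') (fun h => hbc (by rw [h])))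
  have h2 : S ⊆ (S.image Prod.fst) ×ˢ (Finset.univ : Finset (Fin m)) := by
    intro x hx
    rw [Finset.mem_product]
    exact ⟨Finset.mem_image_of_mem _ hx, Finset.mem_univ _⟩
  have h3 := Finset.card_le_card h2
  rw [Finset.card_product, Finset.card_univ, Fintype.card_fin] at h3
  calc S.card ≤ (S.image Prod.fst).card * m := h3
    _ ≤ 2 * m := Nat.mul_le_mul_right _ h1

lemma nbhd_indep : ∀ a b c : Fin 5, (b + 1 = a ∨ a + 1 = b) → (c + 1 = a ∨ a + 1 = c) →
    ¬ (b + 1 = c ∨ c + 1 = b) := by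
  decide +kernel

lemma one_bag {m : ℕ} : ∃ (n : ℕ) (T : SimpleGraph (Fin n)) (B : Fin n → Finset (Fin 5 × Fin m)),
    IsTreeDecomposition (Gr m) T B ∧
      ∀ i, ∀ S : Finset _, S ⊆ B i → (Gr m).IsIndepSet (S : Set _) → S.card ≤ 2 * m := by
  refine ⟨1, ⊥, fun _ => Finset.univ, ⟨IsTree.of_subsingleton, fun v => ⟨0, Finset.mem_univ _⟩,
    fun u v _ => ⟨0, Finset.mem_univ _, Finset.mem_univ _⟩, ?_⟩, fun i S _ hS => indep_le S hS⟩
  intro v
  have h1 : Subsingleton {i : Fin 1 | v ∈ (Finset.univ : Finset (Fin 5 × Fin m))} :=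
    ⟨fun a b => Subtype.ext (Subsingleton.elim _ _)⟩
  have h2 : Nonempty {i : Fin 1 | v ∈ (Finset.univ : Finset (Fin 5 × Fin m))} :=
    ⟨⟨0, by simp⟩⟩
  exact Connected.mk (Preconnected.of_subsingleton)

lemma treeAlpha_eq {m : ℕ} (hm : 1 ≤ m) : treeAlpha (Gr m) = 2 * m := by
  classical
  unfold treeAlpha
  apply le_antisymm
  · exact Nat.sInf_le one_bag
  · apply le_csInf
    · exact ⟨2 * m, one_bag⟩
    · rintro k ⟨n, T, B, hTD, hk⟩
      obtain ⟨R⟩ := Q109.Tree.exists_rtd hTD.isTree hTD.edge hTD.connected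
      have : Nonempty (Fin 5 × Fin m) := ⟨(0, ⟨0, hm⟩)⟩
      obtain ⟨v, -, hv⟩ := R.exists_closed_nbhd
      let S : Finset (Fin 5 × Fin m) := ({v.1 - 1, v.1 + 1} : Finset (Fin 5)) ×ˢ Finset.univ
      have hS1 : S.card = 2 * m := by
        have : ∀ a : Fin 5, ({a - 1, a + 1} : Finset (Fin 5)).card = 2 := by decide
        simp only [S, Finset.card_product, this, Finset.card_univ, Fintype.card_fin]
      have hmem : ∀ u ∈ S, u.1 + 1 = v.1 ∨ v.1 + 1 = u.1 := by
        intro u hu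
        have h1 := (Finset.mem_product.1 hu).1
        rw [Finset.mem_insert, Finset.mem_singleton] at h1
        have : ∀ a b : Fin 5, a = b - 1 ∨ a = b + 1 → a + 1 = b ∨ b + 1 = a := by decide
        exact this _ _ h1
      rw [← hS1]
      refine hk (R.top v) S (fun u hu => hv u (hmem u hu)) ?_
      intro a ha b hb _ hab
      exact nbhd_indep v.1 a.1 b.1 (hmem a ha) (hmem b hb) hab

/-- The inequality `tree-α(G) ≤ ibn(G) + c` fails on `P₅`-free graphs for every constant `c`; more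
precisely, for every `m ≥ 1` there is a `P₅`-free graph with `ibn(G) = m` and
`tree-α(G) = 2m`. -/
theorem result :
    (¬ ∃ c : ℕ, ∀ (V : Type) (_ : Finite V) (G : SimpleGraph V),
      ¬ (pathGraph 5).IsIndContained G → treeAlpha G ≤ ibn G + c) ∧
    ∀ m : ℕ, 1 ≤ m → ∃ (V : Type) (_ : Finite V) (G : SimpleGraph V),
      ¬ (pathGraph 5).IsIndContained G ∧ ibn G = m ∧ treeAlpha G = 2 * m := by
  constructor
  · rintro ⟨c, hc⟩
    have h := hc (Fin 5 × Fin (c + 1)) inferInstance (Gr (c + 1)) (noP5 _)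
    rw [ibn_eq, treeAlpha_eq (by omega)] at h
    omega
  · intro m hm
    exact ⟨Fin 5 × Fin m, inferInstance, Gr m, noP5 m, ibn_eq m, treeAlpha_eq hm⟩

end Pool.Agent.Results.MP_0bffa7_co.BlowUp
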